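import Pool.Agent.Helper92.TN.GoalsH

/-!
# Packet TN-HLEM (project TN, MP_a41896_nt)
-/

set_option autoImplicit false

open MvPolynomial

namespace Pool.Agent.Helper2.TN.HLEM

open WeierstrassCurve
open Pool.Agent.Helper29.BL Pool.Agent.Helper92.Ru Pool.Agent.Helper42.SG
open Pool.Agent.Helper60.T3 (WL IP zd)
open Pool.Agent.Helper92.TN

noncomputable section

section tp

variable {K Ω : Type} [Field K] [Field Ω] [Algebra K Ω] [DecidableEq Ω] {W : Affine K}

lemma tp_zero (τ : Ω ≃ₐ[K] Ω) : tp τ (0 : (WL Ω W).Point) = 0 :=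
  map_zero (Affine.Point.map (W' := W) τ.toAlgHom)

lemma tp_add (τ : Ω ≃ₐ[K] Ω) (P Q : (WL Ω W).Point) : tp τ (P + Q) = tp τ P + tp τ Q :=
  map_add (Affine.Point.map (W' := W) τ.toAlgHom) P Q

lemma tp_sub (τ : Ω ≃ₐ[K] Ω) (P Q : (WL Ω W).Point) : tp τ (P - Q) = tp τ P - tp τ Q :=
  map_sub (Affine.Point.map (W' := W) τ.toAlgHom) P Q

lemma tp_nsmul (τ : Ω ≃ₐ[K] Ω) (n : ℕ) (P : (WL Ω W).Point) : tp τ (n • P) = n • tp τ P :=
  map_nsmul (Affine.Point.map (W' := W) τ.toAlgHom) n P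

lemma tp_inj (τ : Ω ≃ₐ[K] Ω) (P : (WL Ω W).Point) (h : tp τ P = 0) : P = 0 := by
  have h1 := Affine.Point.map_injective (W' := W) τ.toAlgHom
  exact h1 (h.trans (tp_zero τ).symm)

lemma xc_tp (τ : Ω ≃ₐ[K] Ω) (P : (WL Ω W).Point) : xc (tp τ P) = τ (xc P) := by
  rcases P with _ | ⟨x, y, h⟩
  · exact (map_zero τ).symm
  · rfl

lemma tp_fix [CharZero K] (τ : Ω ≃ₐ[K] Ω) (L : Set Ω) (hL : ∀ z ∈ L, τ z = z)
    (P : (WL Ω W).Point) (hP : IP L P) : tp τ P = P := by
  rcases hP with rfl | ⟨h1, h2⟩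
  · exact tp_zero τ
  · rcases P with _ | ⟨x, y, h⟩
    · rfl
    · have hx : τ x = x := hL _ h1
      have hy0 : τ (2 * y + (WL Ω W).a₁ * x + (WL Ω W).a₃) =
          2 * y + (WL Ω W).a₁ * x + (WL Ω W).a₃ := hL _ h2
      have ha1 : τ (WL Ω W).a₁ = (WL Ω W).a₁ := τ.commutes W.a₁
      have ha3 : τ (WL Ω W).a₃ = (WL Ω W).a₃ := τ.commutes W.a₃
      rw [map_add, map_add, map_mul, map_mul, ha1, ha3, hx, map_ofNat] at hy0
      have : CharZero Ω := charZero_of_injective_algebraMap (algebraMap K Ω).injective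
      have hy : τ y = y := by
        have h3 : (2 : Ω) ≠ 0 := two_ne_zero
        have h4 : (2 : Ω) * τ y = 2 * y := by linear_combination hy0
        exact mul_left_cancel₀ h3 h4
      change Affine.Point.some (τ x) (τ y) _ = Affine.Point.some x y _
      congr 1

end tp

lemma exists_val {κ Ω : Type} [Field κ] [Field Ω] [Infinite Ω] [Algebra κ Ω] {n : ℕ}
    (Υ : Fin n → Ω) (hΥ : AlgebraicIndependent κ Υ) (R : MvPolynomial (Option (Fin n)) κ)
    (hR : R ≠ 0) : ∃ c : Ω, aeval (fun o : Option (Fin n) => o.elim c Υ) R ≠ 0 := by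
  set q : Polynomial (MvPolynomial (Fin n) κ) := optionEquivLeft κ (Fin n) R with hq
  have hq0 : q ≠ 0 := by
    intro h
    exact hR ((map_eq_zero_iff _ (optionEquivLeft κ (Fin n)).injective).mp h)
  set p : Polynomial Ω := q.map (aeval Υ : MvPolynomial (Fin n) κ →ₐ[κ] Ω).toRingHom with hp
  have hp0 : p ≠ 0 := by
    intro h
    apply hq0
    exact (Polynomial.map_eq_zero_iff (f := (aeval Υ : MvPolynomial (Fin n) κ →ₐ[κ] Ω).toRingHom)
      hΥ).mp h
  have hev : ∀ c : Ω, aeval (fun o : Option (Fin n) => o.elim c Υ) R = p.eval c := by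
    intro c
    let φ : MvPolynomial (Option (Fin n)) κ →ₐ[κ] Ω :=
      { toRingHom := ((Polynomial.evalRingHom c).comp
          (Polynomial.mapRingHom (aeval Υ : MvPolynomial (Fin n) κ →ₐ[κ] Ω).toRingHom)).comp
          (optionEquivLeft κ (Fin n)).toRingEquiv.toRingHom
        commutes' := by
          intro r
          have h1 : (optionEquivLeft κ (Fin n)) (algebraMap κ _ r) =
            Polynomial.C (C r) := by
            rw [MvPolynomial.algebraMap_eq]
            exact optionEquivLeft_C κ (Fin n) r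
          change Polynomial.eval c (Polynomial.map _ ((optionEquivLeft κ (Fin n))
            (algebraMap κ _ r))) = _
          rw [h1]
          simp }
    have h1 : aeval (fun o : Option (Fin n) => o.elim c Υ) = φ := by
      refine MvPolynomial.algHom_ext fun o => ?_
      rw [aeval_X]
      change _ = Polynomial.eval c (Polynomial.map _ ((optionEquivLeft κ (Fin n)) (X o)))
      cases o with
      | none => rw [optionEquivLeft_X_none]; simp
      | some i => rw [optionEquivLeft_X_some]; simp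
    rw [h1]
    rfl
  by_contra hcon
  push Not at hcon
  apply hp0
  refine Polynomial.eq_zero_of_infinite_isRoot p ?_
  have : {x | p.IsRoot x} = Set.univ := by
    ext c
    simp only [Set.mem_ofPred_eq, Set.mem_univ, iff_true]
    rw [Polynomial.IsRoot, ← hev c]
    exact hcon c
  rw [this]
  exact Set.infinite_univ

section acl

variable {K Ω : Type} [Field K] [Field Ω] [Algebra K Ω]

lemma fix_adjoin (τ : Ω ≃ₐ[K] Ω) (S : Set Ω) (hS : ∀ z ∈ S, τ z = z) (z : Ω)
    (hz : z ∈ IntermediateField.adjoin K S) : τ z = z := by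
  refine IntermediateField.adjoin_induction K (p := fun x _ => τ x = x) ?_ ?_ ?_ ?_ ?_ hz
  · intro x hx
    exact hS x hx
  · intro x
    exact τ.commutes x
  · intro x y _ _ hx hy
    rw [map_add, hx, hy]
  · intro x _ hx
    rw [map_inv₀, hx]
  · intro x y _ _ hx hy
    rw [map_mul, hx, hy]

lemma acl_map (hA : ACLA) (τ : Ω ≃ₐ[K] Ω) (S : Set Ω) (hS : ∀ z ∈ S, τ z = z) (z : Ω) :
    z ∈ acl K S ↔ τ z ∈ acl K S := by
  rw [(hA K Ω S ∅).1 z, (hA K Ω S ∅).1 (τ z)]
  let τ' : Ω →ₐ[IntermediateField.adjoin K S] Ω :=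
    { toRingHom := τ.toRingEquiv.toRingHom
      commutes' := fun r => fix_adjoin τ S hS r.1 r.2 }
  exact (isAlgebraic_algHom_iff τ' (fun a b h => τ.injective h)).symm

/-- The degree does not change under an automorphism which fixes `S` and `t`. -/
lemma dg_map (hA : ACLA) (hD : DGR) (τ : Ω ≃ₐ[K] Ω) (S : Set Ω) (hS : ∀ z ∈ S, τ z = z) (t f : Ω)
    (ht : τ t = t) : dg (acl K S) t (τ f) = dg (acl K S) t f := by
  have h1 := hD.2 (acl K S) Ω (acl K S) Ω
    (τ.toRingEquiv.restrict (acl K S) (acl K S) (acl_map hA τ S hS)) τ.toRingEquiv.toRingHom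
    (fun c => rfl) t f
  have h2 : τ.toRingEquiv.toRingHom t = t := ht
  rw [h2] at h1
  exact h1

/-- `n` elements whose algebraic closure contains `n` independent elements are independent. -/
lemma ind_of_gen (hA : ACLA) (hB : ACLB) (n : ℕ) (ι : Type) [Fintype ι] (X : ι → Ω)
    (hX : AlgebraicIndependent K X) (hn : Fintype.card ι = n) (Υ : Fin n → Ω)
    (hg : ∀ i, X i ∈ acl K (Set.range Υ)) : AlgebraicIndependent K Υ := by
  classical
  rw [(hB K Ω).1 (Fin n) Υ]
  intro i hi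
  set T : Finset Ω := (Finset.univ.erase i).image Υ with hT
  have hTe : (T : Set Ω) = Υ '' {j | j ≠ i} := by
    rw [hT, Finset.coe_image, Finset.coe_erase, Finset.coe_univ]
    congr 1
    ext j
    simp
  have h1 : Set.range Υ ⊆ (acl K (T : Set Ω) : Set Ω) := by
    rintro _ ⟨j, rfl⟩
    by_cases hj : j = i
    · subst hj
      rw [hTe]
      exact hi
    · refine (hA K Ω (T : Set Ω) ∅).2.1 ?_
      rw [hTe]
      exact ⟨j, hj, rfl⟩
  have h2 : acl K (Set.range Υ) ≤ acl K (T : Set Ω) := by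
    have h3 := (hA K Ω (Set.range Υ) (acl K (T : Set Ω) : Set Ω)).2.2.1 h1
    have h4 := (hA K Ω (T : Set Ω) ∅).2.2.2.1
    rw [Set.union_empty, Set.union_empty] at h4
    exact h3.trans h4.le
  have h5 := (hB K Ω).2.1 ι X T hX fun i => h2 (hg i)
  have h6 : T.card ≤ n - 1 := by
    refine Finset.card_image_le.trans ?_
    rw [Finset.card_erase_of_mem (Finset.mem_univ i), Finset.card_univ, Fintype.card_fin]
  have h7 : 0 < n := lt_of_le_of_lt (Nat.zero_le _) i.2
  omega

end acl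

lemma degreeOf_map_incl {κ k σ : Type} [Field κ] [Field k] (φ : κ →+* k) (R : MvPolynomial σ κ)
    (i : σ) : degreeOf i (MvPolynomial.map φ R) ≤ degreeOf i R := by
  classical
  rw [degreeOf_le_iff]
  intro m hm
  refine monomial_le_degreeOf i ?_
  rw [mem_support_iff] at hm ⊢
  intro h
  apply hm
  rw [coeff_map, h, map_zero]

theorem t (hSEL : SEL) (hGEN : GEN) (hRELB : RELB) (hDEGB : DEGB) (hDGR : DGR) (hDGF : DGF)
    (hADDG : ADDG) (hDUPG : DUPG) (hDLOW : DLOW) (hA : ACLA) (hB : ACLB) (hAP : ACLP) : HLEM := by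
  intro D0 n
  obtain ⟨B0, hB0⟩ := hSEL D0 n
  obtain ⟨S0, hS0⟩ := hRELB D0 n
  refine ⟨max (B0 + 1) (16 * n * S0 + 1), le_max_of_le_left (by omega), ?_⟩
  intro K _ _ σ _ _ W a g hcard hell hdeg hNF Ω _ _ _ _ x x0 e SL S t hC hx hgx hx0 hS ht hind
    halg k hk htr htalg c hc
  have hCB : B0 < 4 ^ e := lt_of_lt_of_le (Nat.lt_succ_self _) ((le_max_left _ _).trans hC)
  obtain ⟨τ, T, hτL, hT2, hτx, hLI⟩ := hB0 K σ W a g hcard hell hdeg hNF Ω x e SL hx hgx hind
    halg hCB
  have : CharZero Ω := charZero_of_injective_algebraMap (algebraMap K Ω).injective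
  set w : ∀ b, (WL Ω (W b)).Point := fun b => (2 ^ e) • x b - x0 b with hw
  set S' : Set Ω := S ∪ Set.range fun c : {c : σ // c ≠ a} => xc (w c) with hS'
  have hk' : k = acl K S' := hk
  subst hk'
  set y : Fin n → ∀ b, (WL Ω (W b)).Point := fun i b => tp (τ i) (x b) with hy
  -- facts on the translated points
  have hyne : ∀ i b, y i b ≠ 0 := fun i b h => hx b (tp_inj (τ i) (x b) h)
  have hTI : ∀ i c, c ≠ a → IP (acl K (∅ : Set Ω) : Set Ω) (T i c) := by
    intro i c hc
    have := hell c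
    refine (hAP K Ω (W c) ∅ (T i c) 0 e).2.1 ?_
    rw [hT2 i c hc]
    exact Or.inl rfl
  have hgy : ∀ i, aeval (fun b => xc (y i b)) g = 0 := by
    intro i
    have h1 : (fun b => xc (y i b)) = fun b => (τ i).toAlgHom (xc (x b)) := by
      funext b
      exact xc_tp (τ i) (x b)
    rw [h1, ← comp_aeval_apply, hgx, map_zero]
  have hfix0 : ∀ i b, tp (τ i) (x0 b) = x0 b := fun i b =>
    tp_fix (τ i) (acl K SL : Set Ω) (hτL i) (x0 b) (hx0 b)
  have hfixw : ∀ i c, c ≠ a → tp (τ i) (w c) = w c := by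
    intro i c hc
    rw [hw]
    simp only
    rw [tp_sub, tp_nsmul, hfix0, hτx i c hc, nsmul_add, hT2 i c hc, add_zero]
  have hfixS' : ∀ i, ∀ z ∈ S', τ i z = z := by
    intro i z hz
    rcases hz with hz | ⟨c, rfl⟩
    · exact hτL i z (hS hz)
    · simp only
      rw [← xc_tp, hfixw i c c.2]
  have hfixt : ∀ i, τ i t = t := fun i => hτL i t ht
  have hindK : AlgebraicIndependent K (fun c : {c : σ // c ≠ a} => xc (x c)) :=
    hind.restrictScalars (algebraMap K (acl K SL)).injective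
  have hg0 : g ≠ 0 := by
    intro h
    have h1 := hLI.ne_zero none
    apply h1
    simp only [Option.elim]
    funext b
    simp [nv, h]
  have hgen := hGEN K Ω σ W hell n a g x y T hcard hx hyne hTI hτx hgx hgy hLI
  set Υ : Fin n → Ω := fun i => xc (y i a - x a) with hΥ
  have hcardS : Fintype.card {c : σ // c ≠ a} = n := by
    have h1 := Fintype.card_subtype_compl (fun c : σ => c = a)
    rw [Fintype.card_subtype_eq] at h1
    have h2 : Fintype.card {c : σ // c ≠ a} = Fintype.card {c : σ // ¬ c = a} := rfl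
    rw [h2, h1, hcard]
    omega
  have hΥK : AlgebraicIndependent K Υ :=
    ind_of_gen hA hB n {c : σ // c ≠ a} (fun c => xc (x c)) hindK hcardS Υ fun c => hgen c
  have hΥ0 : AlgebraicIndependent (acl K (∅ : Set Ω)) Υ := (hB K Ω).2.2.2 (Fin n) Υ hΥK
  obtain ⟨R, hR0, hRd, hR⟩ := hS0 K Ω σ W hell a g x y T hcard hg0 hdeg hx hyne hTI hτx hgx hgy
    hindK c hc
  obtain ⟨c0, hc0⟩ := exists_val Υ hΥ0 R hR0
  -- the relation over `k`
  have hle : acl K (∅ : Set Ω) ≤ acl K S' := (hA K Ω ∅ S').2.2.1 (Set.empty_subset _)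
  set φ : acl K (∅ : Set Ω) →+* acl K S' := (IntermediateField.inclusion hle).toRingHom with hφ
  have hev : ∀ f : Option (Fin n) → Ω, aeval f (MvPolynomial.map φ R) = aeval f R := by
    intro f
    rw [aeval_def, aeval_def, eval₂_map]
    rfl
  set d : Ω → ℝ := fun f => dg (acl K S') t f with hd
  have hd0 : ∀ f, 0 ≤ d f := fun f => (hDGF (acl K S') Ω t f htr).1
  have hb1 : d (xc (x c)) ≤ ∑ i : Fin n, (S0 : ℝ) * d (Υ i) := by
    have h1 := hDEGB (acl K S') Ω t htr htalg (Fin n) Υ (xc (x c)) (fun _ => S0)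
      (MvPolynomial.map φ R) (fun i => (degreeOf_map_incl φ R (some i)).trans (hRd _))
      (by rw [hev]; exact hR) ⟨c0, by rw [hev]; exact hc0⟩
    exact h1
  have hclosed : IsAlgClosed (acl K S') := (hA K Ω S' ∅).2.2.2.2.2.1 inferInstance
  have hwa : ∀ i, (2 ^ e) • (y i a - x a) = tp (τ i) (w a) - w a := by
    intro i
    rw [hw]
    simp only
    rw [tp_sub, tp_nsmul, hfix0, nsmul_sub]
    abel
  have hb2 : ∀ i, (4 : ℝ) ^ e * d (Υ i) ≤ 8 * d (xc (w a)) := by
    intro i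
    have := hell a
    have h1 := hDLOW K Ω (W a) (acl K S') t hclosed htr htalg (y i a - x a) 0 e (Or.inl rfl)
    rw [sub_zero, hwa i] at h1
    have h2 := (hADDG K Ω (W a) (acl K S') t htr htalg (tp (τ i) (w a)) (w a)).2
    have h3 : dg (acl K S') t (xc (tp (τ i) (w a))) = dg (acl K S') t (xc (w a)) := by
      rw [xc_tp]
      exact dg_map hA hDGR (τ i) S' (hfixS' i) t (xc (w a)) (hfixt i)
    rw [h3] at h2
    simp only [hd, hΥ]
    linarith
  have hb3 : d (xc (x0 c)) ≤ 2 * (4 ^ e * d (xc (x c))) := by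
    have := hell c
    have h1 : x0 c = (2 ^ e) • x c - w c := by
      rw [hw]
      simp only
      abel
    have h2 := (hADDG K Ω (W c) (acl K S') t htr htalg ((2 ^ e) • x c) (w c)).2
    rw [← h1] at h2
    have h3 := hDUPG K Ω (W c) (acl K S') t htr htalg (x c) e
    have h4 : dg (acl K S') t (xc (w c)) = 0 := by
      refine (hDGF (acl K S') Ω t (xc (w c)) htr).2.1 ?_
      have h5 : xc (w c) ∈ acl K S' := (hA K Ω S' ∅).2.1 (Or.inr ⟨⟨c, hc⟩, rfl⟩)
      exact isAlgebraic_algebraMap (⟨xc (w c), h5⟩ : acl K S')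
    rw [h4] at h2
    simp only [hd]
    linarith
  have hb4 : (4 : ℝ) ^ e * d (xc (x c)) ≤ 8 * n * S0 * d (xc (w a)) := by
    have h4 : (0 : ℝ) ≤ 4 ^ e := by positivity
    calc (4 : ℝ) ^ e * d (xc (x c)) ≤ 4 ^ e * ∑ i : Fin n, (S0 : ℝ) * d (Υ i) :=
          mul_le_mul_of_nonneg_left hb1 h4
      _ = ∑ i : Fin n, (S0 : ℝ) * (4 ^ e * d (Υ i)) := by
          rw [Finset.mul_sum]
          exact Finset.sum_congr rfl fun i _ => by ring
      _ ≤ ∑ _i : Fin n, (S0 : ℝ) * (8 * d (xc (w a))) :=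
          Finset.sum_le_sum fun i _ => mul_le_mul_of_nonneg_left (hb2 i) (Nat.cast_nonneg _)
      _ = 8 * n * S0 * d (xc (w a)) := by
          rw [Finset.sum_const, Finset.card_univ, Fintype.card_fin, nsmul_eq_mul]
          ring
  have hC1 : (16 * n * S0 : ℝ) ≤ ((max (B0 + 1) (16 * n * S0 + 1) : ℕ) : ℝ) := by
    have h1 : 16 * n * S0 ≤ max (B0 + 1) (16 * n * S0 + 1) :=
      (Nat.le_succ _).trans (le_max_right _ _)
    exact_mod_cast h1
  change d (xc (x0 c)) ≤ _ * d (xc (w a))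
  calc d (xc (x0 c)) ≤ 2 * (4 ^ e * d (xc (x c))) := hb3
    _ ≤ 2 * (8 * n * S0 * d (xc (w a))) := mul_le_mul_of_nonneg_left hb4 (by norm_num)
    _ = (16 * n * S0 : ℝ) * d (xc (w a)) := by ring
    _ ≤ _ := mul_le_mul_of_nonneg_right hC1 (hd0 _)

end

end Pool.Agent.Helper2.TN.HLEM
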